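import Mathlib.Algebra.Category.Grp.Basic
import Mathlib.CategoryTheory.Limits.Shapes.Pullback.IsPullback.Basic
import Mathlib.RepresentationTheory.Homological.GroupHomology.Basic
import Mathlib.GroupTheory.PresentedGroup

/-!
# Serre's conjecture for finitely presented groups: acyclic groups suffice

Let `W` be the functor `G ↦ K̃_0(ℤG)` and let `w G` be the Euler class (Wall obstruction) of a group `G`
of type (FP), the alternating sum of the modules of a finite resolution.

Data:
* `Obstruction W w`: a group of type (FP) is of type (FF) iff `w G = 0`; products: `G × C` is of type (FP)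
  and `w (G × C)` is the image of `w G`, if `C` is acyclic and of type (FF); amalgamated products are of type (FP)
  and `w Z = j_* w X + k_* w C - (f j)_* w Y`;
* `MayerVietoris W` (Waldhausen): `W Y → W X ⊕ W C → W Z` is exact for amalgamated products;
* `Resolutions W`: the metric Kan-Thurston theorem (Leary), for a finite complex with the homology of `BG`.

Theorem. All finitely presented groups of type (FP) are of type (FF) iff all acyclic finitely presented
groups of type (FP) are of type (FF).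
-/

set_option autoImplicit false

namespace Pool.Agent.Results.MP_d19827_al.AcyclicSerre

open CategoryTheory

/-- All homology groups `H_m(G; ℤ)`, `m > 0`, vanish. -/
def Acyclic (G : GrpCat.{0}) : Prop :=
  ∀ m : ℕ, 0 < m → Subsingleton (groupHomology (Rep.trivial ℤ G ℤ) m)

/-- `G` has a presentation with finitely many generators and finitely many relations. -/
def FinitelyPresented (G : GrpCat.{0}) : Prop :=
  ∃ (m : ℕ) (r : Finset (FreeGroup (Fin m))),
    Nonempty (G ≃* PresentedGroup (r : Set (FreeGroup (Fin m))))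

/-- `ℤ` has a resolution of finite length by finitely generated projective `ℤG`-modules. -/
def TypeFP (G : GrpCat.{0}) : Prop :=
  ∃ (P : ℕ → Type) (_ : ∀ i, AddCommGroup (P i)) (_ : ∀ i, Module (MonoidAlgebra ℤ G) (P i))
    (d : ∀ i, P (i + 1) →ₗ[MonoidAlgebra ℤ G] P i) (ε : P 0 →+ ℤ) (n : ℕ),
    (∀ i, Module.Finite (MonoidAlgebra ℤ G) (P i)) ∧
    (∀ i, Module.Projective (MonoidAlgebra ℤ G) (P i)) ∧
    (∀ i, n < i → Subsingleton (P i)) ∧
    (∀ (g : G) (x : P 0), ε (MonoidAlgebra.of ℤ G g • x) = ε x) ∧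
    Function.Surjective ε ∧
    (∀ x : P 0, ε x = 0 ↔ x ∈ LinearMap.range (d 0)) ∧
    (∀ i, LinearMap.range (d (i + 1)) = LinearMap.ker (d i))

/-- `ℤ` has a resolution of finite length by finitely generated free `ℤG`-modules. -/
def TypeFF (G : GrpCat.{0}) : Prop :=
  ∃ (P : ℕ → Type) (_ : ∀ i, AddCommGroup (P i)) (_ : ∀ i, Module (MonoidAlgebra ℤ G) (P i))
    (d : ∀ i, P (i + 1) →ₗ[MonoidAlgebra ℤ G] P i) (ε : P 0 →+ ℤ) (n : ℕ),
    (∀ i, Module.Finite (MonoidAlgebra ℤ G) (P i)) ∧
    (∀ i, Module.Free (MonoidAlgebra ℤ G) (P i)) ∧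
    (∀ i, n < i → Subsingleton (P i)) ∧
    (∀ (g : G) (x : P 0), ε (MonoidAlgebra.of ℤ G g • x) = ε x) ∧
    Function.Surjective ε ∧
    (∀ x : P 0, ε x = 0 ↔ x ∈ LinearMap.range (d 0)) ∧
    (∀ i, LinearMap.range (d (i + 1)) = LinearMap.ker (d i))

/-- the group `G × C` -/
abbrev prod (G C : GrpCat.{0}) : GrpCat.{0} := GrpCat.of (G × C)

/-- the projection `G × C → G` -/
abbrev fst (G C : GrpCat.{0}) : prod G C ⟶ G := GrpCat.ofHom (MonoidHom.fst G C)

/-- the inclusion `G → G × C` -/
abbrev inl (G C : GrpCat.{0}) : G ⟶ prod G C := GrpCat.ofHom (MonoidHom.inl G C)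

/-- the homomorphism `y ↦ (p y, e y)` from `Y` to `G × C` -/
abbrev pair {Y G C : GrpCat.{0}} (p : Y ⟶ G) (e : Y ⟶ C) : Y ⟶ prod G C :=
  GrpCat.ofHom (p.hom.prod e.hom)

/-- Classes `w G` in `W G` with: a group of type (FP) is of type (FF) iff `w G = 0`; if `G` is of type
(FP) and `C` is acyclic and of type (FF), then `G × C` is of type (FP) and `w (G × C)` is the image of
`w G`; if `Y`, `X` and `C` are of type (FP), then so is the amalgamated product `Z` of `X` and `C` along
`Y`, and `w Z` is the image of `w X` plus the image of `w C` minus the image of `w Y`. -/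
def Obstruction (W : GrpCat.{0} ⥤ AddCommGrpCat.{0}) (w : ∀ G : GrpCat.{0}, W.obj G) : Prop :=
  (∀ G : GrpCat.{0}, TypeFP G → (TypeFF G ↔ w G = 0)) ∧
  (∀ G C : GrpCat.{0}, TypeFP G → TypeFF C → Acyclic C →
    TypeFP (prod G C) ∧ w (prod G C) = (W.map (inl G C)).hom (w G)) ∧
  ∀ (Y X C Z : GrpCat.{0}) (f : Y ⟶ X) (e : Y ⟶ C) (j : X ⟶ Z) (k : C ⟶ Z),
    IsPushout f e j k → Function.Injective f.hom → Function.Injective e.hom →
    TypeFP Y → TypeFP X → TypeFP C → TypeFP Z ∧
      w Z = (W.map j).hom (w X) + (W.map k).hom (w C) - (W.map j).hom ((W.map f).hom (w Y))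

/-- For amalgamated products `Z` of groups `X` and `C` along a common subgroup `Y` (embedded by
`f : Y → X` and `e : Y → C`) the sequence `W Y → W X ⊕ W C → W Z` is exact: if `x` in `W X` and `c` in
`W C` have the same image in `W Z`, then they are the images of some `y` in `W Y`. -/
def MayerVietoris (W : GrpCat.{0} ⥤ AddCommGrpCat.{0}) : Prop :=
  ∀ (Y X C Z : GrpCat.{0}) (f : Y ⟶ X) (e : Y ⟶ C) (j : X ⟶ Z) (k : C ⟶ Z),
    IsPushout f e j k → Function.Injective f.hom → Function.Injective e.hom →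
    ∀ (x : W.obj X) (c : W.obj C), (W.map j).hom x = (W.map k).hom c →
      ∃ y : W.obj Y, (W.map f).hom y = x ∧ (W.map e).hom y = c

/-- For every finitely presented group `G` of type (FP) there are groups `Y` and `C` of type (FF), with
`W Y = 0` and `C` acyclic, a homomorphism `p : Y → G` and an injective homomorphism `e : Y → C`, such
that the amalgamated product `Z` of `G × C` and `C` along `Y` (embedded by `(p, e)` and `e`) is finitely
presented and acyclic. -/
def Resolutions (W : GrpCat.{0} ⥤ AddCommGrpCat.{0}) : Prop :=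
  ∀ G : GrpCat.{0}, FinitelyPresented G → TypeFP G → ∃ (Y C Z : GrpCat.{0}) (p : Y ⟶ G) (e : Y ⟶ C)
    (j : prod G C ⟶ Z) (k : C ⟶ Z), IsPushout (pair p e) e j k ∧ Function.Injective e.hom ∧
      TypeFP Y ∧ TypeFF Y ∧ (∀ y : W.obj Y, y = 0) ∧ TypeFP C ∧ TypeFF C ∧ Acyclic C ∧
      FinitelyPresented Z ∧ Acyclic Z

/-- All finitely presented groups of type (FP) are of type (FF) if and only if all acyclic finitely
presented groups of type (FP) are of type (FF). -/
theorem result (W : GrpCat.{0} ⥤ AddCommGrpCat.{0}) (w : ∀ G : GrpCat.{0}, W.obj G)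
    (hw : Obstruction W w) (hR : Resolutions W) (hM : MayerVietoris W) :
    (∀ G : GrpCat.{0}, FinitelyPresented G → TypeFP G → TypeFF G) ↔
      ∀ Z : GrpCat.{0}, FinitelyPresented Z → Acyclic Z → TypeFP Z → TypeFF Z := by
  refine ⟨fun h Z hZ _ => h Z hZ, fun h G hG hFP => ?_⟩
  obtain ⟨h1, h2, h3⟩ := hw
  obtain ⟨Y, C, Z, p, e, j, k, hpo, he, hYP, hYF, hY, hCP, hCF, hCa, hZ, hZa⟩ := hR G hG hFP
  have hf : Function.Injective (pair p e).hom := by
    intro a b hab
    exact he (congrArg Prod.snd hab)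
  obtain ⟨hXP, hX⟩ := h2 G C hFP hCF hCa
  obtain ⟨hZP, hwZ⟩ := h3 Y (prod G C) C Z (pair p e) e j k hpo hf he hYP hXP hCP
  have hwY : w Y = 0 := (h1 Y hYP).1 hYF
  have hwC : w C = 0 := (h1 C hCP).1 hCF
  have hwZ0 : w Z = 0 := (h1 Z hZP).1 (h Z hZ hZa hZP)
  rw [hwY, hwC, hwZ0, map_zero, map_zero, map_zero, add_zero, sub_zero] at hwZ
  obtain ⟨y, hy, -⟩ := hM Y (prod G C) C Z (pair p e) e j k hpo hf he (w (prod G C)) 0
    (by rw [← hwZ, map_zero])
  rw [hY y, map_zero, hX] at hy
  have h5 := congrArg (W.map (fst G C)).hom hy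
  have hret : inl G C ≫ fst G C = 𝟙 G := by ext; rfl
  have h4 : (W.map (fst G C)).hom ((W.map (inl G C)).hom (w G)) =
      (W.map (inl G C ≫ fst G C)).hom (w G) := by
    rw [W.map_comp]; rfl
  rw [map_zero, h4, hret, W.map_id] at h5
  exact (h1 G hFP).2 h5.symm

end Pool.Agent.Results.MP_d19827_al.AcyclicSerre
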