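import Pool.Agent.TH57.FF.Bd

set_option autoImplicit false

/-! Every partial free resolution of the trivial module can be changed so that its last boundary
matrix has operator norm close to `3 / √2`. -/

namespace Pool.Agent.Results.MP_d19827_al.BoundaryReduction

open TH57.FF TH57.Thr

theorem result (G : Type) [Group G] (n m k : ℕ)
    (A : Matrix (Fin m) (Fin k) (MonoidAlgebra ℤ G)) (hA : Bd G n A)
    (c : ℝ) (hc : 9 / 2 < c ^ 2) :
    ∃ (m' k' : ℕ) (A' : Matrix (Fin m') (Fin k') (MonoidAlgebra ℤ G)), Bd G n A' ∧ NormLE A' c :=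
  Bd_red n A hA c hc

end Pool.Agent.Results.MP_d19827_al.BoundaryReduction
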