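import Pool.Agent.TH57.TT2.Long6

set_option autoImplicit false

/-! A torsion-free group with a free resolution one of whose boundary matrices has, in each block, at
most one row (or at most one column) with more than two nonzero coefficients. -/

namespace Pool.Agent.Results.MP_d19827_al.OneLongBoundary

open TH57.FF TH57.Thr TH57.TT2

/-- `G` is torsion-free and `A` is the matrix of `F_{n+2} → F_{n+1}` in an exact sequence
`F_{n+2} → F_{n+1} → ... → F_0 → ℤ → 0` of free `ℤG`-modules with finite bases. The rows and the
columns of `A` are coloured so that a nonzero entry is in a row and a column of the same colour.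
Suppose that of any two rows of the same colour one has at most two nonzero coefficients, and the
cokernel of `A` is projective or `ℤG` has no zero divisors; or that of any two columns of the same
colour one has at most two nonzero coefficients, and the cokernel of `A` is projective. Then `G` is of
type FF. -/
theorem result (G : Type) [Group G] (htf : ∀ g : G, IsOfFinOrder g → g = 1)
    (n m k : ℕ) (A : Matrix (Fin m) (Fin k) (MonoidAlgebra ℤ G)) (hA : Bd G (n + 1) A)
    (c : Fin m → ℕ) (d : Fin k → ℕ) (hcd : ∀ i j, A i j ≠ 0 → c i = d j)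
    (h : ((∀ i i', i ≠ i' → c i = c i' → ∑ j, (A i j).coeff.support.card ≤ 2 ∨
          ∑ j, (A i' j).coeff.support.card ≤ 2) ∧
        (Module.Projective (MonoidAlgebra ℤ G)
            ((Fin k → MonoidAlgebra ℤ G) ⧸ LinearMap.range A.vecMulLinear) ∨
          NoZeroDivisors (MonoidAlgebra ℤ G))) ∨
      ((∀ j j', j ≠ j' → d j = d j' → ∑ i, (A i j).coeff.support.card ≤ 2 ∨
          ∑ i, (A i j').coeff.support.card ≤ 2) ∧
        Module.Projective (MonoidAlgebra ℤ G)
            ((Fin k → MonoidAlgebra ℤ G) ⧸ LinearMap.range A.vecMulLinear))) :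
    FFle G (n + 2) := by
  have htf' : ∀ g : G, ∀ k : ℕ, 0 < k → g ^ k = 1 → g = 1 := fun g k hk h =>
    htf g (isOfFinOrder_iff_pow_eq_one.2 ⟨k, hk, h⟩)
  obtain ⟨l, B, hB, hAB⟩ := hA
  have hFR : FR (MonoidAlgebra ℤ G) 1 (Im B) := by
    rcases h with ⟨h, hP | hN⟩ | ⟨h, hP⟩
    · obtain ⟨Y, hY⟩ := regular_of_projective A _ hP (LinearEquiv.refl _ _)
      refine FR_proj A B hAB (SFC_long htf' A Y hY c d hcd fun i i' hii h1 h2 => ?_)
      by_contra hne
      rcases h i i' hne hii with h | h
      · exact absurd h (not_le.2 h1)
      · exact absurd h (not_le.2 h2)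
    · refine FR_dom htf' A B hAB c d hcd fun i i' hii h1 h2 => ?_
      by_contra hne
      rcases h i i' hne hii with h | h
      · exact absurd h (not_le.2 h1)
      · exact absurd h (not_le.2 h2)
    · obtain ⟨Y, hY⟩ := regular_of_projective A _ hP (LinearEquiv.refl _ _)
      refine FR_proj A B hAB (SFC_long_col htf' A Y hY c d hcd fun i i' hii h1 h2 => ?_)
      by_contra hne
      rcases h i i' hne hii with h | h
      · exact absurd h (not_le.2 h1)
      · exact absurd h (not_le.2 h2)
  have h1 := FFle_of_FR n B hB 1 hFR
  have h2 : 1 + n + 1 = n + 2 := by ring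
  rwa [h2] at h1

end Pool.Agent.Results.MP_d19827_al.OneLongBoundary
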