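import Pool.Agent.TH57.FF.Bd

set_option autoImplicit false

/-! A torsion-free group with a free resolution one of whose boundary matrices has operator norm
less than `3 / √2` is of type FF. -/

namespace Pool.Agent.Results.MP_d19827_al.SmallBoundary

open TH57.FF TH57.Thr

theorem result (G : Type) [Group G] (htf : ∀ g : G, IsOfFinOrder g → g = 1)
    (n m k : ℕ) (A : Matrix (Fin m) (Fin k) (MonoidAlgebra ℤ G)) (hA : Bd G n A)
    (c : ℝ) (hc0 : 0 < c) (hc : c ^ 2 < 9 / 2) (hnorm : NormLE A c) : FFle G (n + 3) :=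
  small_boundary (fun g k hk h => htf g (isOfFinOrder_iff_pow_eq_one.2 ⟨k, hk, h⟩)) n A hA c hc0 hc
    hnorm

end Pool.Agent.Results.MP_d19827_al.SmallBoundary
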